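import Mathlib
import Pool.Agent.H89.PdPoly

set_option autoImplicit false

/-!
Problem MP_1cfa24_ag, Q1, negative answer over every field and in every number `n ≥ 3` of
variables, with Mathlib's projective dimension and with its value for every power.
-/

namespace Pool.Agent.Results.MP_1cfa24_ag.EveryField

open CategoryTheory MvPolynomial Pool.Agent.H89.PdU

universe u

theorem pd_eq_one {R : Type u} [CommRing R] {I : Ideal R} (h2 : PdLT I 2)
    (h1 : ¬ Module.Projective R ↥I) : projectiveDimension (ModuleCat.of R ↥I) = 1 := by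
  apply le_antisymm
  · have := (projectiveDimension_le_iff (ModuleCat.of R ↥I) 1).2 h2
    simpa using this
  · have := (projectiveDimension_ge_iff (ModuleCat.of R ↥I) 1).2
      (fun h => h1 ((pdLT_one_iff I).1 h))
    simpa using this

theorem pd_eq_two {R : Type u} [CommRing R] {I : Ideal R} (h3 : PdLT I 3)
    (h2 : ¬ PdLT I 2) : projectiveDimension (ModuleCat.of R ↥I) = 2 := by
  apply le_antisymm
  · have := (projectiveDimension_le_iff (ModuleCat.of R ↥I) 2).2 h3
    simpa using this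
  · have := (projectiveDimension_ge_iff (ModuleCat.of R ↥I) 2).2 h2
    simpa using this

/-- For every field `k` and every `n ≥ 3` there is a homogeneous ideal `Q` of
`k[x_1, …, x_n]` (generated by finitely many homogeneous polynomials, standard grading) such that
`pd Q = 1`, `pd Q ^ 2 = 2` and `pd Q ^ t = 1` for every `t ≥ 3`. -/
theorem result (k : Type u) [Field k] (n : ℕ) (hn : 3 ≤ n) :
    ∃ G : Finset (MvPolynomial (Fin n) k),
      (∀ g ∈ G, ∃ d : ℕ, g.IsHomogeneous d) ∧
      ∃ Q : Ideal (MvPolynomial (Fin n) k), Q = Ideal.span (G : Set (MvPolynomial (Fin n) k)) ∧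
        projectiveDimension (ModuleCat.of (MvPolynomial (Fin n) k) ↥Q) = 1 ∧
        projectiveDimension (ModuleCat.of (MvPolynomial (Fin n) k) ↥(Q ^ 2)) = 2 ∧
        ∀ t : ℕ, 3 ≤ t →
          projectiveDimension (ModuleCat.of (MvPolynomial (Fin n) k) ↥(Q ^ t)) = 1 := by
  classical
  have hab : (⟨0, by omega⟩ : Fin n) ≠ ⟨1, by omega⟩ := by simp
  have hac : (⟨0, by omega⟩ : Fin n) ≠ ⟨2, by omega⟩ := by simp
  have hbc : (⟨1, by omega⟩ : Fin n) ≠ ⟨2, by omega⟩ := by simp
  have h := good (k := k) hab hac hbc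
  set x : MvPolynomial (Fin n) k := X ⟨0, by omega⟩ ^ 2 with hx
  set y : MvPolynomial (Fin n) k := X ⟨1, by omega⟩ with hy
  set z : MvPolynomial (Fin n) k := X ⟨2, by omega⟩ with hz
  refine ⟨{y ^ 5, x * y ^ 4, x ^ 3 * y ^ 3, ff x y z, x ^ 5}, ?_, Q x y z, ?_, ?_, ?_, ?_⟩
  · intro g hg
    refine homog (a := ⟨0, by omega⟩) (b := ⟨1, by omega⟩) (c := ⟨2, by omega⟩) g ?_
    simpa using hg
  · rw [Q]
    simp
  · refine pd_eq_one (pd_Q h).pdLT (not_proj h (a := 5) (b := 5) ?_ g5 g1)
    calc Q x y z ≤ M x y ^ 5 := Q_le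
      _ ≤ M x y := Ideal.pow_le_self (by norm_num)
  · exact pd_eq_two (pdQ2 h) (not_pdQ2 h)
  · intro t ht
    rw [Q_pow t ht]
    refine pd_eq_one (pdM h _) (not_proj h (a := 5 * t) (b := 5 * t) ?_ ?_ ?_)
    · exact Ideal.pow_le_self (by omega)
    · exact Ideal.pow_mem_pow XX_mem _
    · exact Ideal.pow_mem_pow YY_mem _

end Pool.Agent.Results.MP_1cfa24_ag.EveryField
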